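import Mathlib
import Pool.Agent.X204.WMP.Main

/-!
# Domain spaces with the weak maximizing property for all ranges

If `E` is a Banach space (real or complex) such that the pair `(E, F)` has the weak maximizing
property for every Banach space `F`, then `E` is finite dimensional. This answers Q1 in full.

The proof: the operator `x ↦ ((1 - 1/k) R_k x)_k` into `ℓ_∞(G)` shows that WMP forces some unit
vector `x` with `limsup ‖R_k x‖ = lim ‖R_k‖`, as soon as the (almost) maximizing vectors of the
`R_k` are not weakly null. A James-type optimisation of functionals yields reflexivity of `E`.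
In the reflexive case one takes a normalised pointwise null sequence of functionals and extracts
from it a sequence `h_j` with `∑ |h_j x| ≤ 9/8 ‖x‖`; this contradicts weak compactness of the ball.
-/

namespace Pool.Agent.Results.MP_479f73_an.FiniteDimensional

open Filter Topology

/-- The sequence `x` is weakly null. -/
def WeaklyNull (𝕜 : Type) [RCLike 𝕜] {E : Type*} [NormedAddCommGroup E] [NormedSpace 𝕜 E]
    (x : ℕ → E) : Prop :=
  ∀ f : E →L[𝕜] 𝕜, Tendsto (fun n => f (x n)) atTop (𝓝 0)

/-- `x` is a maximizing sequence for `T`: a sequence in the unit sphere of `E` with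
`‖T (x n)‖ → ‖T‖`. -/
def Maximizing {𝕜 : Type} [RCLike 𝕜] {E F : Type*} [NormedAddCommGroup E] [NormedSpace 𝕜 E]
    [NormedAddCommGroup F] [NormedSpace 𝕜 F] (T : E →L[𝕜] F) (x : ℕ → E) : Prop :=
  (∀ n, ‖x n‖ = 1) ∧ Tendsto (fun n => ‖T (x n)‖) atTop (𝓝 ‖T‖)

/-- `T` attains its norm. -/
def AttainsNorm {𝕜 : Type} [RCLike 𝕜] {E F : Type*} [NormedAddCommGroup E] [NormedSpace 𝕜 E]
    [NormedAddCommGroup F] [NormedSpace 𝕜 F] (T : E →L[𝕜] F) : Prop :=
  ∃ x : E, ‖x‖ = 1 ∧ ‖T x‖ = ‖T‖

/-- The pair `(E, F)` has the weak maximizing property: every bounded operator `T : E → F` with a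
maximizing sequence that is not weakly null attains its norm. -/
def WMP (𝕜 : Type) [RCLike 𝕜] (E F : Type*) [NormedAddCommGroup E] [NormedSpace 𝕜 E]
    [NormedAddCommGroup F] [NormedSpace 𝕜 F] : Prop :=
  ∀ T : E →L[𝕜] F, (∃ x : ℕ → E, Maximizing T x ∧ ¬ WeaklyNull 𝕜 x) → AttainsNorm T

theorem bridge {𝕜 : Type} [RCLike 𝕜] {E F : Type*} [NormedAddCommGroup E] [NormedSpace 𝕜 E]
    [NormedAddCommGroup F] [NormedSpace 𝕜 F] (h : WMP 𝕜 E F) :
    Pool.Agent.X204.WMP.HasWMP 𝕜 E F := by
  intro T hT
  obtain ⟨x, h1, h2, h3⟩ := hT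
  exact h T ⟨x, ⟨h1, h2⟩, h3⟩

/-- If `(E, F)` has the weak maximizing property for every Banach space `F`, then the Banach space
`E` is finite dimensional. -/
theorem result (𝕜 : Type) [RCLike 𝕜] (E : Type*) [NormedAddCommGroup E] [NormedSpace 𝕜 E]
    [CompleteSpace E]
    (h : ∀ (F : Type) [NormedAddCommGroup F] [NormedSpace 𝕜 F] [CompleteSpace F], WMP 𝕜 E F) :
    FiniteDimensional 𝕜 E :=
  Pool.Agent.X204.WMP.finiteDimensional_of_wmp (bridge (h _)) fun _ => bridge (h _)

end Pool.Agent.Results.MP_479f73_an.FiniteDimensional
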